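import Pool.Agent.Y368.CL.RvG

/-!
# `C¹` maps of a closed manifold are Lipschitz for a compatible distance
-/

set_option autoImplicit false

open scoped Manifold ContDiff Topology
open Filter Set Metric

universe u

namespace Pool.Agent.H185.CL

open Pool.Agent.H718R2.G Pool.Agent.W564.SC Pool.Agent.Y368.CL

variable {n : ℕ} {N : Type u} [MetricSpace N] [ChartedSpace (V n) N] {r : ℕ∞}

theorem loc_lip [IsManifold (𝓡 n) ∞ N] (hN : ChartLip n N) (hr : 1 ≤ r) (G : N → N)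
    (hG : ContMDiff (𝓡 n) (𝓡 n) r G) (z : N) :
    ∃ L : ℝ, 0 ≤ L ∧ ∃ W ∈ 𝓝 z, ∀ y ∈ W, ∀ y' ∈ W, dist (G y) (G y') ≤ L * dist y y' := by
  obtain ⟨χ, hχ⟩ := Pool.Agent.W699.SC.gc n N z
  obtain ⟨ψ, hψ⟩ := Pool.Agent.W699.SC.gc n N (G z)
  obtain ⟨L₁, hL₁, h₁⟩ := hN χ z hχ
  obtain ⟨L₂, hL₂, h₂⟩ := hN ψ (G z) hψ
  have hx : (0 : V n) ∈ χ.target := hχ.ball (by simp)
  have hs0 : χ.symm 0 = z := by rw [← hχ.zero, χ.left_inv hχ.src]
  have hGx : G (χ.symm 0) ∈ ψ.source := by rw [hs0]; exact hψ.src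
  have hcd : ContDiffAt ℝ 1 (ψ ∘ G ∘ χ.symm) 0 := by
    rw [← contMDiffAt_iff_contDiffAt]
    have m1 : ContMDiffAt (𝓡 n) (𝓡 n) 1 χ.symm 0 :=
      ((contMDiffOn_symm_of_mem_maximalAtlas hχ.mem).contMDiffAt
        (χ.open_target.mem_nhds hx)).of_le (by norm_cast)
    have m2 : ContMDiffAt (𝓡 n) (𝓡 n) 1 G (χ.symm 0) :=
      (hG.contMDiffAt).of_le
        (show ((1 : ℕ∞) : WithTop ℕ∞) ≤ (r : WithTop ℕ∞) from WithTop.coe_le_coe.mpr hr)
    have m3 : ContMDiffAt (𝓡 n) (𝓡 n) 1 ψ (G (χ.symm 0)) :=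
      ((contMDiffOn_of_mem_maximalAtlas hψ.mem).contMDiffAt
        (ψ.open_source.mem_nhds hGx)).of_le (by norm_cast)
    exact m3.comp (0 : V n) (m2.comp (0 : V n) m1)
  obtain ⟨K, s, hs, hK⟩ := hcd.exists_lipschitzOnWith
  have hcχ : ContinuousAt χ z := χ.continuousAt hχ.src
  have hcG : ContinuousAt G z := hG.continuous.continuousAt
  have hcψ : ContinuousAt (fun y => ψ (G y)) z :=
    ContinuousAt.comp (g := ψ) (f := G) (ψ.continuousAt hψ.src) hcG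
  have w1 : χ.source ∈ 𝓝 z := χ.open_source.mem_nhds hχ.src
  have w2 : G ⁻¹' ψ.source ∈ 𝓝 z := hcG.preimage_mem_nhds (ψ.open_source.mem_nhds hψ.src)
  have w3 : χ ⁻¹' s ∈ 𝓝 z := hcχ.preimage_mem_nhds (by rw [hχ.zero]; exact hs)
  have w4 : ∀ᶠ y in 𝓝 z, ‖χ y‖ < 1 / 2 :=
    hcχ.norm.eventually_lt_const (by
      show ‖χ z‖ < 1 / 2
      rw [hχ.zero, norm_zero]; norm_num)
  have w5 : ∀ᶠ y in 𝓝 z, ‖ψ (G y)‖ < 1 / 2 :=
    hcψ.norm.eventually_lt_const (by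
      show ‖ψ (G z)‖ < 1 / 2
      rw [hψ.zero, norm_zero]; norm_num)
  refine ⟨L₂ * (K * L₁), by positivity, _, inter_mem w1 (inter_mem w2 (inter_mem w3
    (inter_mem w4 w5))), ?_⟩
  rintro y ⟨a1, a2, a3, a4, a5⟩ y' ⟨b1, b2, b3, b4, b5⟩
  have e1 := (h₂ (G y) a2 (G y') b2 (le_of_lt a5) (le_of_lt b5)).1
  have e2 := hK.dist_le_mul (χ y) a3 (χ y') b3
  simp only [Function.comp, χ.left_inv a1, χ.left_inv b1] at e2
  rw [dist_eq_norm, dist_eq_norm] at e2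
  have e3 := (h₁ y a1 y' b1 (le_of_lt a4) (le_of_lt b4)).2
  calc dist (G y) (G y') ≤ L₂ * ‖ψ (G y) - ψ (G y')‖ := e1
    _ ≤ L₂ * (K * ‖χ y - χ y'‖) := mul_le_mul_of_nonneg_left e2 hL₂.le
    _ ≤ L₂ * (K * (L₁ * dist y y')) := by
        refine mul_le_mul_of_nonneg_left ?_ hL₂.le
        exact mul_le_mul_of_nonneg_left e3 K.2
    _ = _ := by ring

theorem glob_lip [CompactSpace N] [IsManifold (𝓡 n) ∞ N] (hN : ChartLip n N) (hr : 1 ≤ r)
    (G : N → N) (hG : ContMDiff (𝓡 n) (𝓡 n) r G) :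
    ∃ L : ℝ, 1 ≤ L ∧ ∀ y y', dist (G y) (G y') ≤ L * dist y y' := by
  have h1 : LocallyLipschitzOn univ G := by
    intro z _
    obtain ⟨L, hL, W, hW, h⟩ := loc_lip hN hr G hG z
    refine ⟨⟨L, hL⟩, W, mem_nhdsWithin_of_mem_nhds hW, ?_⟩
    exact LipschitzOnWith.of_dist_le_mul fun y hy y' hy' => h y hy y' hy'
  obtain ⟨K, hK⟩ := h1.exists_lipschitzOnWith_of_compact isCompact_univ
  refine ⟨max 1 K, le_max_left _ _, fun y y' => ?_⟩
  refine (hK.dist_le_mul y (mem_univ _) y' (mem_univ _)).trans ?_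
  exact mul_le_mul_of_nonneg_right (le_max_right _ _) dist_nonneg

theorem iter_lip {G : N → N} {L : ℝ} (hL : 1 ≤ L) (h : ∀ y y', dist (G y) (G y') ≤ L * dist y y')
    (i : ℕ) : ∀ y y', dist (G^[i] y) (G^[i] y') ≤ L ^ i * dist y y' := by
  induction i with
  | zero => intro y y'; simp
  | succ i ih =>
    intro y y'
    rw [Function.iterate_succ_apply, Function.iterate_succ_apply, pow_succ, mul_assoc]
    refine (ih _ _).trans ?_
    exact mul_le_mul_of_nonneg_left (h y y') (by positivity)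

/-- exponential growth of the iterates -/
theorem exists_growth [CompactSpace N] [IsManifold (𝓡 n) ∞ N] (hN : ChartLip n N) (hr : 1 ≤ r)
    (F : DiffM n N r) : ∃ L : ℝ, 1 ≤ L ∧ ∀ m : ℕ, LipTo F m (L ^ (2 * m)) := by
  obtain ⟨L₁, h₁, h₁'⟩ := glob_lip hN hr F F.contMDiff
  obtain ⟨L₂, h₂, h₂'⟩ := glob_lip hN hr F.symm F.symm.contMDiff
  have hL : 1 ≤ max L₁ L₂ := h₁.trans (le_max_left _ _)
  have a1 : ∀ y y', dist (F y) (F y') ≤ max L₁ L₂ * dist y y' := fun y y' =>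
    (h₁' y y').trans (mul_le_mul_of_nonneg_right (le_max_left _ _) dist_nonneg)
  have a2 : ∀ y y', dist (F.symm y) (F.symm y') ≤ max L₁ L₂ * dist y y' := fun y y' =>
    (h₂' y y').trans (mul_le_mul_of_nonneg_right (le_max_right _ _) dist_nonneg)
  refine ⟨max L₁ L₂, hL, fun m i hi x y => ⟨?_, ?_⟩⟩
  · refine (iter_lip hL a1 i x y).trans ?_
    exact mul_le_mul_of_nonneg_right (pow_le_pow_right₀ hL hi) dist_nonneg
  · refine (iter_lip hL a2 i x y).trans ?_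
    exact mul_le_mul_of_nonneg_right (pow_le_pow_right₀ hL hi) dist_nonneg

end Pool.Agent.H185.CL
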