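import Mathlib

/-!
# Fast returns for invariant measures on sets with small covering numbers
-/

set_option autoImplicit false

open Set Filter Metric MeasureTheory
open scoped Topology ENNReal

namespace Pool.Agent.H185.CL

variable {N : Type*} [MeasurableSpace N] {μ : Measure N} [IsProbabilityMeasure μ] {f : N → N}

/-- points which do not return during `T` steps have small measure -/
theorem noreturn (hf : MeasurePreserving f μ μ) {A : Set N} (hA : MeasurableSet A) (T : ℕ)
    (h : ∀ x ∈ A, ∀ m : ℕ, 1 ≤ m → m ≤ T → f^[m] x ∉ A) :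
    ((T : ℝ≥0∞) + 1) * μ A ≤ 1 := by
  have hd : Set.PairwiseDisjoint (↑(Finset.range (T + 1)) : Set ℕ) (fun j => f^[j] ⁻¹' A) := by
    have key : ∀ i j : ℕ, i < j → j ≤ T → Disjoint (f^[i] ⁻¹' A) (f^[j] ⁻¹' A) := by
      intro i j hij hj
      rw [Set.disjoint_left]
      intro x hx hx'
      have h1 : f^[j - i] (f^[i] x) ∈ A := by
        rw [← Function.iterate_add_apply]
        have : j - i + i = j := by omega
        rw [this]
        exact hx'
      exact h _ hx (j - i) (by omega) (by omega) h1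
    intro i hi j hj hij
    have hi' : i < T + 1 := by simpa using hi
    have hj' : j < T + 1 := by simpa using hj
    rcases lt_or_gt_of_ne hij with h1 | h1
    · exact key i j h1 (by omega)
    · exact (key j i h1 (by omega)).symm
  have hm : μ (⋃ j ∈ Finset.range (T + 1), f^[j] ⁻¹' A) = ∑ j ∈ Finset.range (T + 1), μ (f^[j] ⁻¹' A) :=
    measure_biUnion_finset hd (fun j _ => (hf.measurable.iterate j) hA)
  have h2 : ∀ j ∈ Finset.range (T + 1), μ (f^[j] ⁻¹' A) = μ A := fun j _ =>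
    (hf.iterate j).measure_preimage hA.nullMeasurableSet
  rw [Finset.sum_congr rfl h2, Finset.sum_const, Finset.card_range, nsmul_eq_mul] at hm
  push_cast at hm
  rw [← hm]
  exact prob_le_one

/-- a point of `W` with a fast return -/
theorem exists_return {N : Type*} [MetricSpace N] [MeasurableSpace N] [BorelSpace N]
    {μ : Measure N} [IsProbabilityMeasure μ] {f : N → N} (hf : MeasurePreserving f μ μ)
    {W : Set N} (hW : IsOpen W) (S : Finset (Set N)) (ε : ℝ)
    (hS : ∀ U ∈ S, ∀ x ∈ U, ∀ y ∈ U, dist x y ≤ ε) (η : ℝ≥0∞)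
    (hη : μ (⋃ U ∈ S, U)ᶜ ≤ η) (T : ℕ) (hT : (S.card : ℝ≥0∞) / ((T : ℝ≥0∞) + 1) + η < μ W) :
    ∃ x ∈ W, ∃ m : ℕ, 1 ≤ m ∧ m ≤ T ∧ dist (f^[m] x) x ≤ ε := by
  classical
  by_contra hcon
  push Not at hcon
  have hcl : ∀ U ∈ S, ∀ x ∈ closure U, ∀ y ∈ closure U, dist x y ≤ ε := by
    intro U hU x hx y hy
    have h1 : (x, y) ∈ closure (U ×ˢ U) := by
      rw [closure_prod_eq]; exact ⟨hx, hy⟩
    have h2 : IsClosed {p : N × N | dist p.1 p.2 ≤ ε} :=
      isClosed_le (continuous_fst.dist continuous_snd) continuous_const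
    exact closure_minimal (fun p hp => hS U hU p.1 hp.1 p.2 hp.2) h2 h1
  have h1 : ∀ U ∈ S, μ (closure U ∩ W) ≤ 1 / ((T : ℝ≥0∞) + 1) := by
    intro U hU
    have hm : MeasurableSet (closure U ∩ W) := isClosed_closure.measurableSet.inter hW.measurableSet
    have h2 := noreturn hf hm T (fun x hx m hm1 hmT hmem => by
      have h3 := hcon x hx.2 m hm1 hmT
      have h4 := hcl U hU _ hmem.1 _ hx.1
      linarith)
    rw [ENNReal.le_div_iff_mul_le (Or.inl (by positivity)) (Or.inr ENNReal.one_ne_top), mul_comm]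
    exact h2
  have h2 : W ⊆ (⋃ U ∈ S, (closure U ∩ W)) ∪ (⋃ U ∈ S, U)ᶜ := by
    intro x hx
    by_cases h : x ∈ ⋃ U ∈ S, U
    · left
      simp only [mem_iUnion] at h ⊢
      obtain ⟨U, hU, hxU⟩ := h
      exact ⟨U, hU, subset_closure hxU, hx⟩
    · exact Or.inr h
  have h3 : μ W ≤ (S.card : ℝ≥0∞) / ((T : ℝ≥0∞) + 1) + η := by
    calc μ W ≤ μ ((⋃ U ∈ S, (closure U ∩ W)) ∪ (⋃ U ∈ S, U)ᶜ) := measure_mono h2
      _ ≤ μ (⋃ U ∈ S, (closure U ∩ W)) + μ (⋃ U ∈ S, U)ᶜ := measure_union_le _ _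
      _ ≤ (∑ U ∈ S, μ (closure U ∩ W)) + η :=
          add_le_add (measure_biUnion_finset_le _ _) hη
      _ ≤ (∑ U ∈ S, 1 / ((T : ℝ≥0∞) + 1)) + η := by
          gcongr with U hU
          exact h1 U hU
      _ = _ := by
          rw [Finset.sum_const, nsmul_eq_mul, mul_one_div]
  exact absurd hT (not_lt.2 h3)

end Pool.Agent.H185.CL
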